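import Pool.Agent.H.MP_01c081_pr.B

set_option linter.unusedSectionVars false
set_option linter.unusedVariables false
set_option linter.dupNamespace false

namespace Pool.Agent.H.MP_4a7829_pr

open Finset MeasureTheory ProbabilityTheory Measure Filter Topology Pool.Agent.H.MP_01c081_pr
open scoped ENNReal

section
variable {nb : ℤ × ℤ → Fin 4 → ℤ × ℤ} {g : ℤ → ℕ} {A : ℤ → Prop} {F : ℤ × ℤ → ℝ} {E : ℝ}
  (hs : Summable fun p : (ℤ × ℤ) × Fin 4 => (F p.1 - F (nb p.1 p.2)) ^ 2)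
  (hE : E = √(∑' p : (ℤ × ℤ) × Fin 4, (F p.1 - F (nb p.1 p.2)) ^ 2))
  (h0 : ∀ s y, nb (s - y, y) 0 = (s + g s - y, y)) (h2 : ∀ s y, nb (s - y, y) 2 = (s - y, y + g s))
  (a0 : ∀ s, ¬ A s → g s = 0) (a1 : ∀ s, A s → 0 < g s ∧ A (s + g s))
  (a2 : ∀ s t, A s → A t → s < t → s + g s ≤ t)

def S (F : ℤ × ℤ → ℝ) (s u : ℤ) (W : ℕ) : ℝ := ∑ y ∈ range W, F (s - (u + y), u + y)

include hs hE in
lemma cs {ι : Type} (J : Finset ι) (φ : ι → ℤ × ℤ) (d : Fin 4) (inj : Set.InjOn φ J) :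
    |∑ j ∈ J, (F (φ j) - F (nb (φ j) d))| ≤ √(#J) * E := by
  classical
  rw [hE, ← Real.sqrt_mul (by positivity)]
  refine Real.abs_le_sqrt (sq_sum_le_card_mul_sum_sq.trans (mul_le_mul_of_nonneg_left ?_ (by positivity)))
  refine le_of_eq_of_le (sum_image (g := fun j => (φ j, d)) (f := fun p : (ℤ × ℤ) × Fin 4 =>
    (F p.1 - F (nb p.1 p.2)) ^ 2) fun i hi j hj h => inj hi hj (congrArg Prod.fst h)).symm
    (hs.sum_le_tsum _ fun _ _ => sq_nonneg _)

include a0 a1 a2 in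
lemma tele (G : ℤ → ℝ) {s : ℤ} (hA : A s) (t : ℤ) (ht : s ≤ t) : ∀ u, A u → t ≤ u →
    (∀ r, A r → t ≤ r → u ≤ r) → ∑ r ∈ Ico s t, (G r - G (r + g r)) = G s - G u := by
  induction t, ht using Int.leInduction with
  | base => intro u _ h1 h; simp [(h s hA le_rfl).antisymm h1]
  | succ t ht ih =>
    intro u u1 u2 u3
    rw [← Finset.insert_Ico_right_eq_Ico_add_one ht, sum_insert (by simp)]
    by_cases h : A t
    · have := (a1 t h).1
      rw [ih t h le_rfl fun _ _ k => k, (a2 t u h u1 u2).antisymm (u3 _ (a1 t h).2 (by omega))]; ring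
    · rw [ih u u1 (by omega) fun r r1 r2 => u3 r r1 (lt_of_le_of_ne r2 (by rintro rfl; exact h r1)), a0 t h]
      simp

include hs hE h0 a0 a1 a2 in
lemma vert {s t : ℤ} (hA : A s) (hB : A t) (h : s ≤ t) (W : ℕ) :
    |S F s 0 W - S F t 0 W| ≤ √(W * (t - s)) * E := by
  have := cs hs hE (range W ×ˢ Ico s t) (fun p : ℕ × ℤ => (p.2 - p.1, (p.1 : ℤ))) 0 (by
    rintro ⟨a, b⟩ - ⟨c, d⟩ - k
    simp only [Prod.mk.injEq] at k ⊢; omega)
  rw [sum_product, card_product, card_range, Int.card_Ico, Nat.cast_mul, ← Int.cast_natCast (t - s).toNat,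
    Int.toNat_of_nonneg (by omega), Int.cast_sub] at this
  convert this using 2
  rw [S, S, ← sum_sub_distrib]
  refine sum_congr rfl fun y _ => ?_
  simp only [h0, zero_add]
  exact (tele a0 a1 a2 (fun r => F (r - y, y)) hA t h t hB le_rfl fun _ _ k => k).symm

include hs hE h0 h2 in
lemma hor1 (s : ℤ) (W n : ℕ) : |S F s 0 W - S F s (n * g s) W| ≤ n * (2 * (√W * E)) := by
  induction n with
  | zero => simp
  | succ n ih =>
    have k : ∀ u : ℤ, Set.InjOn (fun y : ℕ => (s - (u + y), u + y)) (range W) := fun u a _ b _ k => by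
      simp only [Prod.mk.injEq] at k; omega
    have b1 := cs hs hE (range W) _ 2 (k (n * g s))
    have b2 := cs hs hE (range W) _ 0 (k ((n + 1 : ℕ) * g s))
    simp only [h0, h2, card_range, sum_sub_distrib] at b1 b2
    rw [sum_congr rfl (f := fun y : ℕ => F (s + g s - ((n + 1 : ℕ) * g s + y), (n + 1 : ℕ) * g s + y))
      (g := fun y : ℕ => F (s - (n * g s + y), n * g s + y + g s)) fun y _ => by
        congr 2 <;> (push_cast; ring)] at b2
    rw [abs_le] at *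
    simp only [S] at *
    push_cast at *
    constructor <;> linarith [ih.1, ih.2]

include hs hE h0 h2 in
lemma hor (s : ℤ) (q l : ℕ) : |l * S F s 0 (q * g s) - S F s 0 (l * (q * g s))| ≤
    l * (l * q * (2 * (√(q * g s : ℕ) * E))) := by
  have E0 : 0 ≤ 2 * (√(q * g s : ℕ) * E) := by rw [hE]; positivity
  induction l with
  | zero => simp [S]
  | succ l ih =>
    have := hor1 hs hE h0 h2 s (q * g s) (l * q)
    have e : S F s 0 ((l + 1) * (q * g s)) = S F s 0 (l * (q * g s)) + S F s ((l * q : ℕ) * g s) (q * g s) := by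
      rw [S, add_mul, one_mul, sum_range_add]
      congr 1
      exact sum_congr rfl fun y _ => by congr 2 <;> (push_cast; ring)
    rw [e]
    generalize 2 * (√(q * g s : ℕ) * E) = c at *
    have : 0 ≤ (q : ℝ) * c := by positivity
    have : 0 ≤ (l : ℝ) * (q * c) := by positivity
    rw [abs_le] at *
    push_cast at *
    constructor <;> nlinarith

include hs hE h0 h2 a0 a1 a2 in
lemma step {s t : ℤ} (hA : A s) (hB : A t) (h : s ≤ t) {W l : ℕ} (hd : g s ∣ W) (W0 : 0 < W) (l0 : 0 < l) :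
    |S F s 0 W / W - S F t 0 (l * W) / (l * W : ℕ)| ≤
      (2 * l * √W / g s + √((t - s) / (l * W : ℕ))) * E := by
  obtain ⟨q, rfl⟩ := dvd_iff_exists_eq_mul_left.1 hd
  have b1 := hor hs hE h0 h2 s q l
  have b2 := vert hs hE h0 a0 a1 a2 hA hB h (l * (q * g s))
  have g0 : (0 : ℝ) < g s := by exact_mod_cast (a1 s hA).1
  have q0 : (0 : ℝ) < q := by exact_mod_cast Nat.pos_of_mul_pos_right W0
  have p : (0 : ℝ) < (l * (q * g s) : ℕ) := by positivity
  have e : √((l * (q * g s) : ℕ) * (t - s)) = (l * (q * g s) : ℕ) * √((t - s) / (l * (q * g s) : ℕ)) := by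
    rw [← Real.sqrt_sq p.le, ← Real.sqrt_mul (by positivity), Real.sqrt_sq p.le]
    congr 1; field_simp
  rw [e] at b2
  refine le_of_mul_le_mul_left ?_ p
  rw [← abs_of_pos p, ← abs_mul, abs_of_pos p]
  refine le_of_eq_of_le (congrArg _ ?_) (((abs_add_le _ _).trans (add_le_add b1 b2)).trans_eq ?_)
  · push_cast; field_simp; ring
  · push_cast; field_simp

end

def nT (j : ℕ) : ℕ := 2 * j ^ 2

lemma nT_n (j : ℕ) : nT j + j + 2 ≤ nT (j + 1) := by unfold nT; nlinarith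

def wT (j : ℕ) : ℕ := (2 ^ (j ^ 2 + 2 * j + 2)) ^ 2

theorem trans' {ω : ℤ × ℤ → Bool} (h : Str nT ω) (o : ω 0 = true) :
    ∀ᵐ ξ ∂Xi, {n | walk (nbr ω) 0 ξ n = 0}.Finite := by
  have hF := full nT_n h
  simp only [← (walk_eq hF o _ _).1]
  obtain ⟨hd, j1, hj⟩ := h
  obtain ⟨g, hg⟩ : ∃ g : ℤ → ℕ, g = fun s => if ω (s, 0) then
    sInf {k : ℕ | 0 < k ∧ ω (s + k, 0) = true} else 0 := ⟨_, rfl⟩
  have h0 : ∀ s y, nb' ω (s - y, y) 0 = (s + g s - y, y) := fun s y => by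
    simp only [hg, nb', nbr, gap, th, hd (_ + _), hd (_ - _, _), dir]
    split_ifs <;> simp_all [sub_add_eq_add_sub]
  have h2 : ∀ s y, nb' ω (s - y, y) 2 = (s - y, y + g s) := fun s y => by
    simp only [hg, nb', nbr, gap, th, hd (_ + _), hd (_ - _, _), dir]
    split_ifs <;> simp_all [← add_assoc]
  have a0 : ∀ s, ¬ ω (s, 0) = true → g s = 0 := fun s h => by simp [hg, h]
  have a1 : ∀ s, ω (s, 0) = true → 0 < g s ∧ ω (s + g s, 0) = true := fun s h => by
    simp only [hg, h, if_true]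
    exact Nat.sInf_mem (s := {k : ℕ | 0 < k ∧ ω (s + k, 0) = true}) (by
      simpa [dir, Set.Nonempty] using hF (s, 0) 0)
  have a2 : ∀ s t, ω (s, 0) = true → ω (t, 0) = true → s < t → s + g s ≤ t := fun s t h h' k => by
    obtain ⟨a, rfl⟩ := Int.le.dest k.le
    simp only [hg, h, if_true]
    have := Nat.sInf_le (s := {k : ℕ | 0 < k ∧ ω (s + k, 0) = true}) (m := a) ⟨by omega, h'⟩
    omega
  have T : ∀ k : ℕ, ∃ t : ℤ, ω (t, 0) = true ∧ ω (t - 1, 0) = true ∧ g t = 2 ^ nT (k + (j1 + 9)) ∧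
      2 ^ (nT (k + (j1 + 9)) + (k + (j1 + 9)) + 2) < t ∧
      t ≤ 2 * 2 ^ (nT (k + (j1 + 9)) + (k + (j1 + 9)) + 2) := fun k => by
    obtain ⟨r, r1, r2⟩ := hj (k + (j1 + 9)) (by omega)
    generalize k + (j1 + 9) = j at *
    have p1 : (2 : ℤ) ^ (nT j + j + 2) ≤ 2 ^ nT (j + 1) := pow_le_pow_right₀ (by norm_num) (nT_n j)
    have p2 : (2 : ℤ) ^ nT j ≤ 2 ^ (nT j + j + 2) := pow_le_pow_right₀ (by norm_num) (by omega)
    have p3 : (0 : ℤ) < 2 ^ nT j := by positivity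
    generalize (2 : ℤ) ^ (nT j + j + 2) = M at *
    have m1 := Int.emod_nonneg r (by linarith : M ≠ 0)
    have m2 := Int.emod_lt_of_pos r (by linarith : 0 < M)
    have m3 : M ∣ r + (2 * M - r % M) := ⟨2 + r / M, by linarith [Int.mul_ediv_add_emod r M]⟩
    have o1 := r1 (2 * M - r % M) 0 (abs_le.2 ⟨by linarith, by linarith⟩) (.inl rfl) (by simpa using m3)
    refine ⟨_, o1, r1 _ (-1) (abs_le.2 ⟨by linarith, by linarith⟩) (by simp) (by convert m3 using 1; ring),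
      ?_, by linarith, by linarith⟩
    have b1 := a2 _ _ o1 (r1 (2 * M - r % M + 2 ^ nT j) _ (abs_le.2 ⟨by linarith, by linarith⟩)
      (.inr (.inr rfl)) (by convert m3 using 1; ring)) (by linarith)
    have b2 := fun k => r2 _ _ m3 (by exact_mod_cast (a1 _ o1).1) k (a1 _ o1).2
    zify; exact le_antisymm (by linarith) (not_lt.1 b2)
  generalize hJ : j1 + 9 = J at T
  choose t t1 t2 t3 t4 t5 using T
  have tm : ∀ k, t k ≤ t (k + 1) := fun k => by
    refine (t5 k).trans (le_trans ?_ (t4 _).le)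
    rw [← pow_succ', add_right_comm k]
    exact pow_le_pow_right₀ (by norm_num) (by have := nT_n (k + J); omega)
  have t0 : (0 : ℤ) < t 0 := lt_trans (by positivity) (t4 0)
  refine trans iv_iv (nb_iv hF) 0 (C := (√(t 0) + (2 * wT J + 1) + 4) ^ 2) (fun F hf => ?_) (sq_nonneg _)
  have hs := en_s iv_iv (nb_iv hF) hf
  obtain ⟨E, hE⟩ : ∃ E, E = √(∑' p : (ℤ × ℤ) × Fin 4, (F p.1 - F (nb' ω p.1 p.2)) ^ 2) := ⟨_, rfl⟩
  have E0 : 0 ≤ E := hE ▸ Real.sqrt_nonneg _
  have w0 : ∀ j, 0 < wT j := fun j => by unfold wT; positivity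
  have b1 := vert hs hE h0 a0 a1 a2 (s := 0) o (t2 0) (by omega) 1
  have g1 : g (t 0 - 1) = 1 := by
    have := a2 _ _ (t2 0) (t1 0) (by omega)
    have := (a1 _ (t2 0)).1
    omega
  have b2 := step hs hE h0 h2 a0 a1 a2 (t2 0) (t1 0) (by omega) (W := 1) (by rw [g1]) one_pos (w0 J)
  have b3 := dist_le_of_le_geometric_two_of_tendsto₀ (C := 4 * E)
    (f := fun k => S F (t k) 0 (wT (k + J)) / wT (k + J)) (a := 0) (fun k => ?_) ?_
  · rw [← Real.sq_sqrt (tsum_nonneg fun _ => sq_nonneg _), ← hE, ← mul_pow]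
    refine sq_le_sq' ?_ ?_ <;>
    · have c1 : √((1 : ℕ) * (((t 0 - 1 : ℤ) : ℝ) - (0 : ℤ))) ≤ √(t 0) := Real.sqrt_le_sqrt (by simp)
      have c2 : √(((t 0 : ℝ) - (t 0 - 1 : ℤ)) / (wT J * 1 : ℕ)) ≤ 1 := Real.sqrt_le_one.2 (by
        rw [div_le_one (by simpa using w0 J)]; simpa using Nat.succ_le_of_lt (w0 J))
      have c3 := mul_le_mul_of_nonneg_right c1 E0
      have c4 := mul_le_mul_of_nonneg_right c2 E0
      have c5 : S F 0 0 1 = F 0 := by simp [S]; rfl
      simp only [g1, mul_one, Nat.cast_one, Real.sqrt_one, div_one, Real.dist_eq, zero_add, sub_zero,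
        abs_le, c5] at b1 b2 b3 c3 c4
      linarith [b1.1, b1.2, b2.1, b2.2, b3.1, b3.2]
  · obtain ⟨j, e, j9, jk⟩ : ∃ j, k + J = j ∧ 9 ≤ j ∧ k ≤ j := ⟨_, rfl, by omega, by omega⟩
    have e' : wT (j + 1) = 2 ^ (4 * j + 6) * wT j := by unfold wT; ring
    have st := step hs hE h0 h2 a0 a1 a2 (t1 k) (t1 _) (tm k) (W := wT j) (l := 2 ^ (4 * j + 6)) (by
      rw [t3, e, wT, ← pow_mul]; exact pow_dvd_pow _ (by unfold nT; omega)) (w0 j) (by positivity)
    rw [Real.dist_eq, add_right_comm k, e, e']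
    refine st.trans ?_
    have u5 := t5 (k + 1)
    have u4 := t4 k
    rw [add_right_comm k, e] at u5
    have c1 : 2 * (2 ^ (4 * j + 6) : ℕ) * √(wT j) / (g (t k) : ℝ) ≤ 1 / 2 ^ k := by
      rw [t3, e, wT, div_le_div_iff₀ (by positivity) (by positivity)]
      push_cast
      rw [Real.sqrt_sq (by positivity), ← pow_succ', ← pow_add, ← pow_add, one_mul]
      exact pow_le_pow_right₀ (by norm_num) (by unfold nT; nlinarith)
    have c2 : √(((t (k + 1) : ℝ) - t k) / (2 ^ (4 * j + 6) * wT j : ℕ)) ≤ 1 / 2 ^ k := by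
      refine Real.sqrt_le_iff.2 ⟨by positivity, ?_⟩
      rw [← e', div_pow, div_le_div_iff₀ (by exact_mod_cast w0 _) (by positivity), wT]
      have : (t (k + 1) : ℝ) - t k ≤ 2 * 2 ^ (nT (j + 1) + (j + 1) + 2) := by
        exact_mod_cast (sub_le_self _ (lt_trans (by positivity) u4).le).trans u5
      refine (mul_le_mul_of_nonneg_right this (by positivity)).trans ?_
      push_cast
      rw [← pow_mul, ← pow_mul, ← pow_succ', ← pow_add, one_pow, one_mul]
      exact pow_le_pow_right₀ (by norm_num) (by unfold nT; omega)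
    refine (mul_le_mul_of_nonneg_right (add_le_add c1 c2) E0).trans_eq (by ring)
  · obtain ⟨B, hB⟩ := (hf.image fun v => (v.1 + v.2).toNat).bddAbove
    refine tendsto_const_nhds.congr' (eventually_atTop.2 ⟨B, fun k hk => ?_⟩)
    simp only
    rw [S, Finset.sum_eq_zero, zero_div]
    intro y _
    by_contra hy
    have := hB ⟨_, hy, rfl⟩
    have u : ((nT (k + J) + (k + J) + 2 : ℕ) : ℤ) < 2 ^ (nT (k + J) + (k + J) + 2) := by
      exact_mod_cast Nat.lt_two_pow_self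
    have := t4 k
    simp only at *
    omega

end Pool.Agent.H.MP_4a7829_pr
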